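import Mathlib

set_option autoImplicit false

namespace Pool.Agent.Results.MP_be8152_al.Empty

/-- `m` is a commutative bilinear product on `k ^ n` with `(x ^ 2) ^ 2 = 0` -/
def FourAlg {k : Type} [Field k] {n : ℕ} (m : (Fin n → k) → (Fin n → k) → Fin n → k) : Prop :=
  (∀ x y, m x y = m y x) ∧ (∀ x y z, m (x + y) z = m x z + m y z) ∧
    (∀ (c : k) x y, m (c • x) y = c • m x y) ∧ ∀ x, m (m x x) (m x x) = 0

/-- `f` is a linear map on `k ^ n` -/
def Lin {k : Type} [Field k] {n : ℕ} (f : (Fin n → k) → Fin n → k) : Prop :=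
  (∀ x y, f (x + y) = f x + f y) ∧ ∀ (c : k) x, f (c • x) = c • f x

/-- `f` is a Bernstein operator for the product `m` -/
def Bern {k : Type} [Field k] {n : ℕ} (m : (Fin n → k) → (Fin n → k) → Fin n → k)
    (f : (Fin n → k) → Fin n → k) : Prop :=
  Lin f ∧ (∀ x, f (f x) = f x) ∧ (∀ x, m (m x x) (f x) = 0) ∧
    ∀ x, m (f x) (f x) + f (m x x) = m x x

def mu {k : Type} [Field k] (u v : Fin 8 → k) : Fin 8 → k :=
  ![0, 0, u 0 * v 0, u 1 * v 1, u 0 * v 1 + u 1 * v 0, u 0 * v 2 + u 2 * v 0,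
    u 1 * v 3 + u 3 * v 1, u 4 * v 4 - 2 * (u 2 * v 3 + u 3 * v 2) + (u 0 * v 5 + u 5 * v 0)]

lemma four {k : Type} [Field k] : FourAlg (mu (k := k)) := by
  refine ⟨fun x y => ?_, fun x y z => ?_, fun c x y => ?_, fun x => ?_⟩ <;> funext i <;>
    fin_cases i <;> simp [mu] <;> ring

theorem result (k : Type) [Field k] [Infinite k] (h2 : ringChar k ≠ 2) :
    ∃ n : ℕ, 1 ≤ n ∧ ∃ m : (Fin n → k) → (Fin n → k) → Fin n → k, FourAlg m ∧
      ¬ ∃ f, Bern m f := by
  refine ⟨8, by norm_num, mu, four, ?_⟩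
  rintro ⟨f, ⟨ha, hs⟩, hi, hc, hq⟩
  have two : (2 : k) ≠ 0 := Ring.two_ne_zero h2
  obtain ⟨c1, c2, -, -⟩ := four (k := k)
  have pol : ∀ x y, mu (f x) (f y) + f (mu x y) = mu x y := by
    intro x y
    have h := hq (x + y)
    have e1 : ∀ u v : Fin 8 → k, mu (u + v) (u + v) = mu u u + (mu u v + mu u v) + mu v v := by
      intro u v
      rw [c2, c1 u, c1 v, c2, c2, c1 v u]
      abel
    rw [ha, e1, e1, ha, ha, ha] at h
    have h3 := hq x
    have h4 := hq y
    funext i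
    have t1 := congrFun h i
    have t2 := congrFun h3 i
    have t3 := congrFun h4 i
    simp only [Pi.add_apply] at t1 t2 t3 ⊢
    apply mul_left_cancel₀ two
    linear_combination t1 - t2 - t3
  have z0 : ∀ x, f x 0 = 0 := fun x => by
    have := congrFun (hc (f x)) 5
    rw [hi] at this
    simpa [mu] using this
  have z1 : ∀ x, f x 1 = 0 := fun x => by
    have := congrFun (hc (f x)) 6
    rw [hi] at this
    simpa [mu] using this
  have m1 : mu (Pi.single 0 1 : Fin 8 → k) (Pi.single 1 1) = Pi.single 4 1 := by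
    funext i; fin_cases i <;> simp [mu]
  have m2 : mu (Pi.single 0 1 : Fin 8 → k) (Pi.single 2 1) = Pi.single 5 1 := by
    funext i; fin_cases i <;> simp [mu]
  have m3 : mu (Pi.single 4 1 : Fin 8 → k) (Pi.single 4 1) = Pi.single 7 1 := by
    funext i; fin_cases i <;> simp [mu]
  have m4 : mu (Pi.single 0 1 : Fin 8 → k) (Pi.single 5 1) = Pi.single 7 1 := by
    funext i; fin_cases i <;> simp [mu]
  have p1 := pol (Pi.single 0 1) (Pi.single 1 1)
  have p2 := pol (Pi.single 0 1) (Pi.single 2 1)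
  have p3 := pol (Pi.single 4 1) (Pi.single 4 1)
  have p4 := pol (Pi.single 0 1) (Pi.single 5 1)
  rw [m1] at p1
  rw [m2] at p2
  rw [m3] at p3
  rw [m4] at p4
  have a2 := congrFun p1 2
  have a3 := congrFun p1 3
  have a4 := congrFun p1 4
  have b2 := congrFun p2 2
  have b3 := congrFun p2 3
  have b4 := congrFun p2 4
  have d3 := congrFun p3 7
  have d4 := congrFun p4 7
  simp [mu, z0, z1] at a2 a3 a4 b2 b3 b4
  simp [mu, z0, a2, a3, a4] at d3
  simp [mu, z0, b2, b3, b4, d3] at d4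

end Pool.Agent.Results.MP_be8152_al.Empty
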